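import Pool.Agent.X14.Bala
import Pool.Agent.X14.Blocks

set_option autoImplicit false

namespace Pool.Agent.Results.MP_5eb62f_nt.AllPowers

open Finset Pool.Agent.H434R2 Pool.Agent.H434R2.PO Pool.Agent.X14

/-- Bala's sequence: `a(0) = 1` and
`a(n) = ∑_{j=0}^{n-1} C(n,j) C(n-1,j) C(n+j-1,j)^2` for `n ≥ 1`. -/
def a (n : ℕ) : ℤ :=
  if n = 0 then 1 else ∑ j ∈ range n, (n.choose j : ℤ) * ((n - 1).choose j : ℤ) * ((n + j - 1).choose j : ℤ) ^ 2

/-- `V_n(k) = ∏_{i<k} (1 - (n/i)^2)^2` (the factor of index `0` is `1`) -/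
def V (n k : ℕ) : ℚ := ∏ i ∈ range k, (1 - ((n : ℚ) / (i : ℚ)) ^ 2) ^ 2

/-- the terms -/
def F (n k : ℕ) : ℚ := ((n : ℚ) / (k : ℚ)) ^ 3 * (1 - (n : ℚ) / (k : ℚ)) * V n k

lemma V_succ_eq (n j : ℕ) : V n (j + 1) = Bala.WW n j := by
  unfold V Bala.WW Bala.xx
  rw [prod_range_succ']
  simp

lemma a_eq (n : ℕ) (hn : 1 ≤ n) : (a n : ℚ) = 1 - ∑ k ∈ range n, F n k := by
  have h : (a n : ℚ) = 1 - ∑ j ∈ range (n - 1), Bala.xx n j ^ 3 * (1 - Bala.xx n j) * Bala.WW n j :=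
    Bala.a_eq n hn
  rw [h]
  obtain ⟨m, rfl⟩ : ∃ m, n = m + 1 := ⟨n - 1, by omega⟩
  rw [sum_range_succ', Nat.add_sub_cancel]
  have h0 : F (m + 1) 0 = 0 := by unfold F; simp
  rw [h0, add_zero]
  congr 1
  apply sum_congr rfl
  intro j _
  unfold F
  rw [V_succ_eq]
  unfold Bala.xx
  push_cast
  ring

variable {p : ℕ} [hp : Fact p.Prime]

/-- the product over the integers prime to `p` below `p J` -/
def E (p n J : ℕ) : ℚ := ∏ I ∈ range J, ∏ t ∈ range (p - 1), (1 - ((n : ℚ) / ((p * I + (t + 1) : ℕ) : ℚ)) ^ 2) ^ 2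

lemma V_mul (n' J : ℕ) : V (p * n') (p * J) = V n' J * E p (p * n') J := by
  have hp1 := hp.out.one_lt.le
  have hp0 : (p : ℚ) ≠ 0 := by exact_mod_cast hp.out.ne_zero
  unfold V E
  rw [prod_split hp1]
  congr 1
  apply prod_congr rfl
  intro I _
  push_cast
  rw [mul_div_mul_left _ _ hp0]

lemma F_mul (n' J : ℕ) : F (p * n') (p * J) = F n' J * E p (p * n') J := by
  have hp0 : (p : ℚ) ≠ 0 := by exact_mod_cast hp.out.ne_zero
  unfold F
  rw [V_mul]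
  push_cast
  rw [mul_div_mul_left _ _ hp0]
  ring

/-- second order expansion of a product -/
lemma prod_expand {ι : Type*} {k : ℕ} (s : Finset ι) (y : ι → ℚ) (hy : ∀ i ∈ s, PO p k (y i)) :
    PO p (2 * k) (∏ i ∈ s, (1 - y i) ^ 2 - (1 - 2 * ∑ i ∈ s, y i)) := by
  classical
  induction s using Finset.induction_on with
  | empty => simpa using PO.zero (p := p) (2 * k)
  | insert i s hi ih =>
    have hyi := hy i (mem_insert_self i s)
    have ih' := ih (fun j hj => hy j (mem_insert_of_mem hj))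
    have hS : PO p k (∑ j ∈ s, y j) := PO.sum _ _ (fun j hj => hy j (mem_insert_of_mem hj))
    rw [prod_insert hi, sum_insert hi]
    have e : (1 - y i) ^ 2 * ∏ j ∈ s, (1 - y j) ^ 2 - (1 - 2 * (y i + ∑ j ∈ s, y j)) =
        (1 - y i) ^ 2 * (∏ j ∈ s, (1 - y j) ^ 2 - (1 - 2 * ∑ j ∈ s, y j)) +
        (y i * y i * (1 - 2 * ∑ j ∈ s, y j) + ((4 : ℕ) : ℚ) * (y i * ∑ j ∈ s, y j)) := by
      push_cast; ring
    rw [e]
    have hy0 := hyi.mono (Nat.zero_le k)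
    have hS0 := hS.mono (Nat.zero_le k)
    have h2 : PO p 0 (1 - 2 * ∑ j ∈ s, y j) := by
      refine PO.one.sub (PO.mul0 ?_ hS0)
      exact_mod_cast of_nat (p := p) 2
    have h3 : PO p (2 * k) (y i * y i) := by have := hyi.mul hyi; rwa [← two_mul] at this
    have h4 : PO p (2 * k) (y i * ∑ j ∈ s, y j) := by have := hyi.mul hS; rwa [← two_mul] at this
    exact (PO.mul0 ((PO.one.sub hy0).pow0 2) ih').add ((h3.mul0' h2).add (PO.mul0 (of_nat 4) h4))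

lemma sq_div_PO {r I t : ℕ} (ht : t < p - 1) :
    PO p (2 * r) (((((p ^ r : ℕ) : ℚ)) / ((p * I + (t + 1) : ℕ) : ℚ)) ^ 2) := by
  have h1 : PO p r ((((p ^ r : ℕ) : ℚ)) / ((p * I + (t + 1) : ℕ) : ℚ)) := by
    rw [div_eq_mul_inv]
    refine PO.mul0' ?_ (inv_blk I ht)
    push_cast
    exact ppow r
  have := h1.pow 2
  rwa [mul_comm] at this

lemma E_expand (r J : ℕ) :
    PO p (4 * r) (E p (p ^ r) J - (1 - 2 * ((p : ℚ) ^ (2 * r) * hs p 2 J))) := by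
  unfold E
  rw [← prod_product' (s := range J) (t := range (p - 1))
    (f := fun I t => (1 - ((((p ^ r : ℕ) : ℚ)) / ((p * I + (t + 1) : ℕ) : ℚ)) ^ 2) ^ 2)]
  have h := prod_expand (p := p) (k := 2 * r) (range J ×ˢ range (p - 1))
    (fun x : ℕ × ℕ => ((((p ^ r : ℕ) : ℚ)) / ((p * x.1 + (x.2 + 1) : ℕ) : ℚ)) ^ 2)
    (fun x hx => sq_div_PO (mem_range.1 (mem_product.1 hx).2))
  have e : ∑ x ∈ range J ×ˢ range (p - 1), ((((p ^ r : ℕ) : ℚ)) / ((p * x.1 + (x.2 + 1) : ℕ) : ℚ)) ^ 2 =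
      (p : ℚ) ^ (2 * r) * hs p 2 J := by
    unfold hs
    rw [sum_product, mul_sum]
    apply sum_congr rfl
    intro I _
    rw [mul_sum]
    apply sum_congr rfl
    intro t _
    push_cast
    rw [div_pow, ← pow_mul, mul_comm r 2]
    ring
  rw [e] at h
  rw [show 4 * r = 2 * (2 * r) by ring]
  exact h

/-- `n' / J` is divisible by `p` for `0 < J < n'`, `n' = p^s'`-/
lemma div_PO_one {s J : ℕ} (hJ : J < p ^ (s + 1)) : PO p 1 ((((p ^ (s + 1) : ℕ)) : ℚ) / (J : ℚ)) := by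
  rcases Nat.eq_zero_or_pos J with h0 | h0
  · subst h0; simpa using PO.zero (p := p) 1
  · push_cast
    apply PO_ppow_div (s := s + 1) (by omega)
    intro h
    have := Nat.le_of_dvd h0 h
    omega

lemma div_PO_zero {s J : ℕ} (hJ : J < p ^ s) : PO p 0 ((((p ^ s : ℕ)) : ℚ) / (J : ℚ)) := by
  rcases Nat.eq_zero_or_pos s with h0 | h0
  · subst h0
    have : J = 0 := by simpa using hJ
    subst this; simpa using PO.zero (p := p) 0
  · obtain ⟨s', rfl⟩ : ∃ s', s = s' + 1 := ⟨s - 1, by omega⟩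
    exact (div_PO_one hJ).mono (by omega)

lemma V_one {s J : ℕ} (hJ : J ≤ p ^ (s + 1)) : PO p 2 (V (p ^ (s + 1)) J - 1) := by
  unfold V
  apply prod_one
  intro i hi
  have h1 := (div_PO_one (p := p) (s := s) (J := i) (by have := mem_range.1 hi; omega)).pow 2
  set x := ((p ^ (s + 1) : ℕ) : ℚ) / (i : ℚ)
  have e : (1 - x ^ 2) ^ 2 - 1 = x ^ 2 * (x ^ 2 - 2) := by ring
  rw [e]
  refine h1.mul0' ((h1.mono (by omega)).sub ?_)
  exact_mod_cast of_nat (p := p) 2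

/-- `(n'/J) hs 2 J` is divisible by `n' p` -/
lemma key_PO (h2 : p ≠ 2) (h3 : ¬ p - 1 ∣ 2) {s J : ℕ} (hJ : J < p ^ (s + 1)) :
    PO p (s + 2) ((((p ^ (s + 1) : ℕ)) : ℚ) / (J : ℚ) * hs p 2 J) := by
  rcases Nat.eq_zero_or_pos J with h0 | h0
  · subst h0; simpa using PO.zero (p := p) (s + 2)
  · obtain ⟨e, c, hc, he⟩ := Nat.exists_eq_pow_mul_and_not_dvd h0.ne' p hp.out.ne_one
    have hes : e < s + 1 := by
      by_contra h
      have : p ^ (s + 1) ∣ J := by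
        rw [he]; exact dvd_mul_of_dvd_left (pow_dvd_pow p (by omega)) _
      have := Nat.le_of_dvd h0 this
      omega
    have h4 : PO p (s + 1 - e) ((((p ^ (s + 1) : ℕ)) : ℚ) / (J : ℚ)) := by
      push_cast
      apply PO_ppow_div (s := e + 1) (by omega)
      intro h
      apply hc
      rw [he, pow_succ] at h
      exact Nat.dvd_of_mul_dvd_mul_left (pow_pos hp.out.pos e) h
    have h5 : PO p (e + 1) (hs p 2 J) := by
      have h6 := hs_mul (p := p) 2 e c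
      have h7 := hs_pow_dvd (p := p) h2 h3 e
      have e1 : hs p 2 J = (hs p 2 (p ^ e * c) - c * hs p 2 (p ^ e)) + c * hs p 2 (p ^ e) := by
        rw [he]; ring
      rw [e1]
      exact h6.add (PO.mul0 (of_nat c) h7)
    have := h4.mul h5
    rwa [show s + 1 - e + (e + 1) = s + 2 by omega] at this

/-- the sum over all `J` -/
lemma sum_cube (h2 : p ≠ 2) (h3 : ¬ p - 1 ∣ 2) (h4 : ¬ p - 1 ∣ 3) (s : ℕ) :
    PO p (s + 5) (∑ J ∈ range (p ^ (s + 1)), ((((p ^ (s + 1) : ℕ)) : ℚ) / (J : ℚ)) ^ 3 * hs p 2 J) := by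
  have hp0 : (p : ℚ) ≠ 0 := by exact_mod_cast hp.out.ne_zero
  -- first replace the terms by those with `p^s ∣ J`
  have hsplit : ∑ J ∈ range (p ^ (s + 1)), ((((p ^ (s + 1) : ℕ)) : ℚ) / (J : ℚ)) ^ 3 * hs p 2 J =
      ∑ J ∈ (range (p ^ (s + 1))).filter (fun J => ¬ p ^ s ∣ J), ((((p ^ (s + 1) : ℕ)) : ℚ) / (J : ℚ)) ^ 3 * hs p 2 J +
      ∑ J ∈ (range (p ^ (s + 1))).filter (fun J => p ^ s ∣ J), ((((p ^ (s + 1) : ℕ)) : ℚ) / (J : ℚ)) ^ 3 * hs p 2 J := by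
    rw [← sum_filter_add_sum_filter_not (range (p ^ (s + 1))) (fun J => p ^ s ∣ J)
      (fun J => ((((p ^ (s + 1) : ℕ)) : ℚ) / (J : ℚ)) ^ 3 * hs p 2 J), add_comm]
  rw [hsplit]
  refine PO.add ?_ ?_
  · apply PO.sum
    intro J hJ
    rw [mem_filter] at hJ
    have hJ1 := mem_range.1 hJ.1
    have h5 : PO p 2 ((((p ^ (s + 1) : ℕ)) : ℚ) / (J : ℚ)) := by
      push_cast
      exact PO_ppow_div (s := s) (by omega) hJ.2
    have h6 := key_PO (p := p) h2 h3 hJ1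
    set x := (((p ^ (s + 1) : ℕ)) : ℚ) / (J : ℚ)
    have e : x ^ 3 * hs p 2 J = x ^ 2 * (x * hs p 2 J) := by ring
    rw [e]
    exact ((h5.pow 2).mul h6).mono (by omega)
  · have himg : (range (p ^ (s + 1))).filter (fun J => p ^ s ∣ J) = (range p).image (fun c => p ^ s * c) := by
      ext J
      simp only [mem_filter, mem_image, mem_range]
      constructor
      · rintro ⟨h5, c, rfl⟩
        refine ⟨c, ?_, rfl⟩
        rw [pow_succ] at h5
        exact lt_of_mul_lt_mul_left h5 (Nat.zero_le _)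
      · rintro ⟨c, h5, rfl⟩
        refine ⟨?_, dvd_mul_right _ _⟩
        rw [pow_succ]
        exact Nat.mul_lt_mul_of_pos_left h5 (pow_pos hp.out.pos s)
    rw [himg, sum_image]
    swap
    · intro x _ y _ hxy
      exact Nat.eq_of_mul_eq_mul_left (pow_pos hp.out.pos s) hxy
    have e1 : ∀ c ∈ range p, ((((p ^ (s + 1) : ℕ)) : ℚ) / ((p ^ s * c : ℕ) : ℚ)) ^ 3 * hs p 2 (p ^ s * c) =
        (p : ℚ) ^ 3 * ((1 / (c : ℚ) ^ 3) * hs p 2 (p ^ s * c)) := by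
      intro c _
      push_cast
      rw [pow_succ (p : ℚ) s, mul_div_mul_left _ _ (pow_ne_zero s hp0), div_pow]
      ring
    rw [sum_congr rfl e1, ← mul_sum]
    rw [show s + 5 = 3 + (s + 2) by ring]
    refine (ppow (p := p) 3).mul ?_
    obtain ⟨q, hq⟩ : ∃ q, p = q + 1 := ⟨p - 1, by have := hp.out.one_lt; omega⟩
    have e2 : ∑ c ∈ range p, 1 / (c : ℚ) ^ 3 * hs p 2 (p ^ s * c) =
        ∑ b ∈ range (p - 1), 1 / ((b : ℚ) + 1) ^ 3 * hs p 2 (p ^ s * (b + 1)) := by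
      have : range p = range (p - 1 + 1) := by rw [Nat.sub_add_cancel hp.out.one_lt.le]
      rw [this, sum_range_succ']
      simp
    rw [e2]
    have e3 : ∑ b ∈ range (p - 1), 1 / ((b : ℚ) + 1) ^ 3 * hs p 2 (p ^ s * (b + 1)) =
        ∑ b ∈ range (p - 1), 1 / ((b : ℚ) + 1) ^ 3 * (hs p 2 (p ^ s * (b + 1)) - ((b + 1 : ℕ) : ℚ) * hs p 2 (p ^ s)) +
        (∑ b ∈ range (p - 1), 1 / ((b : ℚ) + 1) ^ 2) * hs p 2 (p ^ s) := by
      rw [sum_mul, ← sum_add_distrib]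
      apply sum_congr rfl
      intro b _
      have hb : ((b : ℚ) + 1) ≠ 0 := by positivity
      push_cast
      field_simp
      ring
    rw [e3]
    refine PO.add ?_ ?_
    · apply PO.sum
      intro b hb
      exact PO.mul0 (inv_succ_pow (mem_range.1 hb) 3) (hs_mul2 (p := p) 2 s (b + 1) h4)
    · have := (inv_pow_sum (p := p) h3).mul (hs_pow_dvd (p := p) h2 h3 s)
      rwa [show 1 + (s + 1) = s + 2 by ring] at this

/-- the multiples of `p` -/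
lemma partA (h2 : p ≠ 2) (h3 : ¬ p - 1 ∣ 2) (h4 : ¬ p - 1 ∣ 3) (s : ℕ) :
    PO p (3 * (s + 2) + 3) (∑ J ∈ range (p ^ (s + 1)), F (p ^ (s + 1)) J * (E p (p ^ (s + 2)) J - 1)) := by
  have h := sum_cube (p := p) h2 h3 h4 s
  have e : ∑ J ∈ range (p ^ (s + 1)), F (p ^ (s + 1)) J * (E p (p ^ (s + 2)) J - 1) =
      (∑ J ∈ range (p ^ (s + 1)), F (p ^ (s + 1)) J * (E p (p ^ (s + 2)) J - 1) -
      ∑ J ∈ range (p ^ (s + 1)), (-2 * (p : ℚ) ^ (2 * (s + 2))) *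
        (((((p ^ (s + 1) : ℕ)) : ℚ) / (J : ℚ)) ^ 3 * hs p 2 J)) +
      (-((2 : ℕ) : ℚ)) * ((p : ℚ) ^ (2 * (s + 2)) * ∑ J ∈ range (p ^ (s + 1)), ((((p ^ (s + 1) : ℕ)) : ℚ) / (J : ℚ)) ^ 3 * hs p 2 J) := by
    rw [← mul_sum]; push_cast; ring
  rw [e]
  refine PO.add ?_ ?_
  · apply sum_sub
    intro J hJ
    have hJ' := mem_range.1 hJ
    have hx := div_PO_one (p := p) (s := s) hJ'
    have hV := V_one (p := p) (s := s) (J := J) hJ'.le
    have hE := E_expand (p := p) (s + 2) J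
    have hk := key_PO (p := p) h2 h3 hJ'
    unfold F
    set x := (((p ^ (s + 1) : ℕ)) : ℚ) / (J : ℚ)
    set v := V (p ^ (s + 1)) J
    set ee := E p (p ^ (s + 2)) J
    set hh := hs p 2 J
    have hv0 : PO p 0 v := by
      have := (hV.mono (Nat.zero_le 2)).add (PO.one (p := p))
      rwa [sub_add_cancel] at this
    have hu : PO p 1 ((1 - x) * v - 1) := by
      have e1 : (1 - x) * v - 1 = (v - 1) - x * v := by ring
      rw [e1]
      exact (hV.mono (by omega)).sub (hx.mul0' hv0)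
    have e2 : x ^ 3 * (1 - x) * v * (ee - 1) - -2 * (p : ℚ) ^ (2 * (s + 2)) * (x ^ 3 * hh) =
        x ^ 3 * ((1 - x) * v) * (ee - (1 - 2 * ((p : ℚ) ^ (2 * (s + 2)) * hh))) +
        (-((2 : ℕ) : ℚ)) * ((p : ℚ) ^ (2 * (s + 2)) * (x ^ 2 * ((x * hh) * ((1 - x) * v - 1)))) := by
      push_cast; ring
    rw [e2]
    refine PO.add ?_ ?_
    · have h5 : PO p 0 ((1 - x) * v) := (PO.one.sub (hx.mono (by omega))).mul0 hv0
      exact (((hx.pow 3).mul0' h5).mul hE).mono (by omega)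
    · refine PO.mul0 (of_nat 2).neg ?_
      exact ((ppow (p := p) (2 * (s + 2))).mul ((hx.pow 2).mul (hk.mul hu))).mono (by omega)
  · refine PO.mul0 (of_nat 2).neg ?_
    exact ((ppow (p := p) (2 * (s + 2))).mul h).mono (by omega)

/-- the product of the factors of index at most `p J + t` -/
lemma V_blk (s J t : ℕ) (hJ : J < p ^ (s + 1)) (ht : t < p - 1) :
    PO p 4 (V (p ^ (s + 2)) (p * J + (t + 1)) - V (p ^ (s + 1)) (J + 1)) := by
  have hp1 := hp.out.one_lt.le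
  have hp0 : (p : ℚ) ≠ 0 := by exact_mod_cast hp.out.ne_zero
  have e0 : V (p ^ (s + 2)) (p * J) = V (p ^ (s + 1)) J * E p (p ^ (s + 2)) J := by
    have := V_mul (p := p) (p ^ (s + 1)) J
    rwa [show p * p ^ (s + 1) = p ^ (s + 2) by ring] at this
  have hE : PO p 4 (E p (p ^ (s + 2)) J - 1) := by
    unfold E
    apply prod_one
    intro I _
    apply prod_one
    intro u hu
    have h1 := (sq_div_PO (p := p) (r := s + 2) (I := I) (mem_range.1 hu)).mono (k := 4) (by omega)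
    set x := (((((p ^ (s + 2) : ℕ) : ℚ)) / ((p * I + (u + 1) : ℕ) : ℚ)) ^ 2)
    have e : (1 - x) ^ 2 - 1 = x * (x - 2) := by ring
    rw [e]
    refine h1.mul0' ((h1.mono (by omega)).sub ?_)
    exact_mod_cast of_nat (p := p) 2
  have e1 : V (p ^ (s + 2)) (p * J + (t + 1)) = V (p ^ (s + 2)) (p * J) *
      ((∏ u ∈ range t, (1 - ((((p ^ (s + 2) : ℕ) : ℚ)) / ((p * J + (u + 1) : ℕ) : ℚ)) ^ 2) ^ 2) *
        (1 - ((((p ^ (s + 1) : ℕ) : ℚ)) / (J : ℚ)) ^ 2) ^ 2) := by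
    unfold V
    rw [prod_range_add, prod_range_succ']
    congr 2
    rw [add_zero]
    push_cast
    rw [pow_succ (p : ℚ) (s + 1), mul_comm ((p : ℚ) ^ (s + 1)), mul_div_mul_left _ _ hp0]
  have e2 : V (p ^ (s + 1)) (J + 1) = V (p ^ (s + 1)) J * (1 - ((((p ^ (s + 1) : ℕ) : ℚ)) / (J : ℚ)) ^ 2) ^ 2 := by
    unfold V
    rw [prod_range_succ]
  have hQ : PO p 4 ((∏ u ∈ range t, (1 - ((((p ^ (s + 2) : ℕ) : ℚ)) / ((p * J + (u + 1) : ℕ) : ℚ)) ^ 2) ^ 2) - 1) := by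
    apply prod_one
    intro u hu
    have hu' : u < p - 1 := by have := mem_range.1 hu; omega
    have h1 := (sq_div_PO (p := p) (r := s + 2) (I := J) hu').mono (k := 4) (by omega)
    set x := (((((p ^ (s + 2) : ℕ) : ℚ)) / ((p * J + (u + 1) : ℕ) : ℚ)) ^ 2)
    have e : (1 - x) ^ 2 - 1 = x * (x - 2) := by ring
    rw [e]
    refine h1.mul0' ((h1.mono (by omega)).sub ?_)
    exact_mod_cast of_nat (p := p) 2
  have hV := V_one (p := p) (s := s) (J := J + 1) (by omega)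
  rw [e1, e0]
  set Q := ∏ u ∈ range t, (1 - ((((p ^ (s + 2) : ℕ) : ℚ)) / ((p * J + (u + 1) : ℕ) : ℚ)) ^ 2) ^ 2
  set W := (1 - ((((p ^ (s + 1) : ℕ) : ℚ)) / (J : ℚ)) ^ 2) ^ 2
  have hV0 : PO p 0 (V (p ^ (s + 1)) (J + 1)) := by
    have := (hV.mono (Nat.zero_le 2)).add (PO.one (p := p))
    rwa [sub_add_cancel] at this
  have e3 : V (p ^ (s + 1)) J * E p (p ^ (s + 2)) J * (Q * W) - V (p ^ (s + 1)) (J + 1) =
      V (p ^ (s + 1)) (J + 1) * ((E p (p ^ (s + 2)) J - 1) * (Q - 1) + (E p (p ^ (s + 2)) J - 1) + (Q - 1)) := by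
    rw [e2]; ring
  rw [e3]
  exact PO.mul0 hV0 (((hE.mul0' (hQ.mono (by omega))).add hE).add hQ)

/-- `2 Σ_{p ∤ k < n} 1/k^3` is small -/
lemma hs_three (h2 : p ≠ 2) (s : ℕ) : PO p 3 (hs p 3 (p ^ (s + 1))) := by
  have hp1 := hp.out.one_lt
  -- reflection
  have hrefl : hs p 3 (p ^ (s + 1)) = ∑ J ∈ range (p ^ (s + 1)), ∑ t ∈ range (p - 1),
      1 / (((p * (p ^ (s + 1) - 1 - J) + (p - 1 - 1 - t + 1) : ℕ)) : ℚ) ^ 3 := by
    unfold hs
    rw [← Finset.sum_range_reflect _ (p ^ (s + 1))]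
    apply sum_congr rfl
    intro J _
    rw [← Finset.sum_range_reflect _ (p - 1)]
  have hcast : ∀ J ∈ range (p ^ (s + 1)), ∀ t ∈ range (p - 1),
      ((p * (p ^ (s + 1) - 1 - J) + (p - 1 - 1 - t + 1) : ℕ) : ℚ) = (p : ℚ) ^ (s + 2) - ((p * J + (t + 1) : ℕ) : ℚ) := by
    intro J hJ t ht
    have hJ' := mem_range.1 hJ
    have ht' := mem_range.1 ht
    have h1 : p * (p ^ (s + 1) - 1 - J) + (p - 1 - 1 - t + 1) + (p * J + (t + 1)) = p ^ (s + 2) := by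
      obtain ⟨K, hK⟩ : ∃ K, p ^ (s + 1) = K + 1 + J := ⟨p ^ (s + 1) - 1 - J, by omega⟩
      have h5 : p ^ (s + 2) = p * (K + 1 + J) := by rw [← hK]; ring
      have h6 : p ^ (s + 1) - 1 - J = K := by omega
      rw [h6, h5]
      have h7 : p - 1 - 1 - t + 1 = p - (t + 1) := by omega
      rw [h7]
      have h8 : p * (K + 1 + J) = p * K + p + p * J := by ring
      rw [h8]
      omega
    have h2 : ((p * (p ^ (s + 1) - 1 - J) + (p - 1 - 1 - t + 1) : ℕ) : ℚ) + ((p * J + (t + 1) : ℕ) : ℚ) = (p : ℚ) ^ (s + 2) := by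
      exact_mod_cast h1
    linarith
  have h4 : PO p 4 (2 * hs p 3 (p ^ (s + 1)) + 3 * ((p : ℚ) ^ (s + 2) * hs p 4 (p ^ (s + 1)))) := by
    have e : 2 * hs p 3 (p ^ (s + 1)) + 3 * ((p : ℚ) ^ (s + 2) * hs p 4 (p ^ (s + 1))) =
        ∑ J ∈ range (p ^ (s + 1)), ∑ t ∈ range (p - 1),
        (1 / ((p * J + (t + 1) : ℕ) : ℚ) ^ 3 +
        1 / (((p * (p ^ (s + 1) - 1 - J) + (p - 1 - 1 - t + 1) : ℕ)) : ℚ) ^ 3 +
        3 * ((p : ℚ) ^ (s + 2) * (1 / ((p * J + (t + 1) : ℕ) : ℚ) ^ 4))) := by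
      simp only [sum_add_distrib, ← mul_sum]
      rw [← hrefl]
      unfold hs
      ring
    rw [e]
    apply PO.sum
    intro J hJ
    apply PO.sum
    intro t ht
    have ht' := mem_range.1 ht
    rw [hcast J hJ t ht]
    have hk : ((p * J + (t + 1) : ℕ) : ℚ) ≠ 0 := by positivity
    have hN : PO p (s + 2) (-(p : ℚ) ^ (s + 2)) := (ppow (p := p) (s + 2)).neg
    have h := inv_shift (p := p) (by omega) (inv_blk J ht') hk hN 3
    set k : ℚ := ((p * J + (t + 1) : ℕ) : ℚ)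
    set N : ℚ := (p : ℚ) ^ (s + 2)
    have e5 : 1 / k ^ 3 + 1 / (N - k) ^ 3 + 3 * (N * (1 / k ^ 4)) =
        -(1 / (-N + k) ^ 3 - (1 / k ^ 3 - ((3 : ℕ) : ℚ) * (-N) * (1 / k ^ (3 + 1)))) := by
      have h6 : (N - k) ^ 3 = -((-N + k) ^ 3) := by ring
      rw [h6, one_div_neg_eq_neg_one_div]
      push_cast
      ring
    rw [e5]
    exact h.neg.mono (by omega)
  have h5 : PO p 3 (3 * ((p : ℚ) ^ (s + 2) * hs p 4 (p ^ (s + 1)))) := by
    have h6 := hs_dvd_of_dvd (p := p) 4 (p ^ s)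
    rw [show p * p ^ s = p ^ (s + 1) by ring] at h6
    have h7 := ((ppow (p := p) (s + 2)).mul h6).mono (k := 3) (by omega)
    refine PO.mul0 ?_ h7
    exact_mod_cast of_nat (p := p) 3
  have e6 : hs p 3 (p ^ (s + 1)) = 1 / 2 * ((2 * hs p 3 (p ^ (s + 1)) + 3 * ((p : ℚ) ^ (s + 2) * hs p 4 (p ^ (s + 1)))) -
      3 * ((p : ℚ) ^ (s + 2) * hs p 4 (p ^ (s + 1)))) := by ring
  rw [e6]
  exact PO.mul0 (half h2) ((h4.mono (by omega)).sub h5)

/-- the integers prime to `p` -/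
lemma partB (h2 : p ≠ 2) (h4 : ¬ p - 1 ∣ 3) (s : ℕ) :
    PO p (3 * (s + 2) + 3) (∑ J ∈ range (p ^ (s + 1)), ∑ t ∈ range (p - 1), F (p ^ (s + 2)) (p * J + (t + 1))) := by
  have e : ∑ J ∈ range (p ^ (s + 1)), ∑ t ∈ range (p - 1), F (p ^ (s + 2)) (p * J + (t + 1)) =
      (p : ℚ) ^ (3 * (s + 2)) * ∑ J ∈ range (p ^ (s + 1)), ∑ t ∈ range (p - 1),
        (1 / ((p * J + (t + 1) : ℕ) : ℚ) ^ 3) * (1 - (p : ℚ) ^ (s + 2) * (1 / ((p * J + (t + 1) : ℕ) : ℚ))) *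
        V (p ^ (s + 2)) (p * J + (t + 1)) := by
    rw [mul_sum]
    apply sum_congr rfl
    intro J _
    rw [mul_sum]
    apply sum_congr rfl
    intro t _
    unfold F
    push_cast
    rw [div_pow, ← pow_mul, mul_comm (s + 2) 3]
    ring
  rw [e]
  refine (ppow (p := p) (3 * (s + 2))).mul (k := 3) ?_
  have e1 : ∑ J ∈ range (p ^ (s + 1)), ∑ t ∈ range (p - 1),
        (1 / ((p * J + (t + 1) : ℕ) : ℚ) ^ 3) * (1 - (p : ℚ) ^ (s + 2) * (1 / ((p * J + (t + 1) : ℕ) : ℚ))) *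
        V (p ^ (s + 2)) (p * J + (t + 1)) =
      ∑ J ∈ range (p ^ (s + 1)), (∑ t ∈ range (p - 1),
        ((1 / ((p * J + (t + 1) : ℕ) : ℚ) ^ 3) * (1 - (p : ℚ) ^ (s + 2) * (1 / ((p * J + (t + 1) : ℕ) : ℚ))) *
        (V (p ^ (s + 2)) (p * J + (t + 1)) - V (p ^ (s + 1)) (J + 1)) -
        (p : ℚ) ^ (s + 2) * ((1 / ((p * J + (t + 1) : ℕ) : ℚ) ^ 4) * (V (p ^ (s + 1)) (J + 1) - 1))) +
        (V (p ^ (s + 1)) (J + 1) - 1) * ∑ t ∈ range (p - 1), (1 / ((p * J + (t + 1) : ℕ) : ℚ) ^ 3)) +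
      hs p 3 (p ^ (s + 1)) - (p : ℚ) ^ (s + 2) * hs p 4 (p ^ (s + 1)) := by
    unfold hs
    rw [mul_sum, ← sum_add_distrib, ← sum_sub_distrib]
    apply sum_congr rfl
    intro J _
    rw [mul_sum, mul_sum, ← sum_add_distrib, ← sum_add_distrib, ← sum_sub_distrib]
    apply sum_congr rfl
    intro t _
    have hk : ((p * J + (t + 1) : ℕ) : ℚ) ≠ 0 := by positivity
    set k : ℚ := ((p * J + (t + 1) : ℕ) : ℚ)
    field_simp
    ring
  rw [e1]
  refine PO.sub (PO.add ?_ (hs_three h2 s)) ?_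
  · apply PO.sum
    intro J hJ
    have hJ' := mem_range.1 hJ
    have hV := V_one (p := p) (s := s) (J := J + 1) (by omega)
    refine PO.add ?_ ?_
    · apply PO.sum
      intro t ht
      have ht' := mem_range.1 ht
      refine PO.sub ?_ ?_
      · refine (PO.mul0 ?_ (V_blk s J t hJ' ht')).mono (by omega)
        refine (inv_blk_pow J ht' 3).mul0 (PO.one.sub ?_)
        have := inv_blk_pow (p := p) J ht' 1
        rw [pow_one] at this
        exact ((ppow (p := p) (s + 2)).mono (Nat.zero_le _)).mul0 this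
      · exact ((ppow (p := p) (s + 2)).mul (PO.mul0 (inv_blk_pow J ht' 4) hV)).mono (by omega)
    · refine (hV.mul (k := 1) ?_)
      have e5 : ∑ t ∈ range (p - 1), 1 / ((p * J + (t + 1) : ℕ) : ℚ) ^ 3 =
          (∑ t ∈ range (p - 1), 1 / ((p * J + (t + 1) : ℕ) : ℚ) ^ 3 - ∑ t ∈ range (p - 1), 1 / ((t : ℚ) + 1) ^ 3) +
          ∑ t ∈ range (p - 1), 1 / ((t : ℚ) + 1) ^ 3 := by ring
      rw [e5]
      refine PO.add ?_ (inv_pow_sum h4)
      apply sum_sub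
      intro t ht
      have ht' := mem_range.1 ht
      have hk : ((t : ℚ) + 1) ≠ 0 := by positivity
      have hN : PO p 1 ((p : ℚ) * J) := p_PO.mul0' (of_nat J)
      have h := inv_shift (p := p) le_rfl (inv_succ ht') hk hN 3
      push_cast at h ⊢
      have e6 : 1 / ((p : ℚ) * J + (t + 1)) ^ 3 - 1 / ((t : ℚ) + 1) ^ 3 =
          (1 / ((p : ℚ) * J + (t + 1)) ^ 3 - (1 / ((t : ℚ) + 1) ^ 3 - 3 * ((p : ℚ) * J) * (1 / ((t : ℚ) + 1) ^ (3 + 1)))) -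
          ((3 : ℕ) : ℚ) * (((p : ℚ) * J) * (1 / ((t : ℚ) + 1) ^ (3 + 1))) := by push_cast; ring
      rw [e6]
      exact (h.mono (by omega)).sub (PO.mul0 (of_nat 3) (hN.mul0' (inv_succ_pow ht' 4)))
  · have h6 := hs_dvd_of_dvd (p := p) 4 (p ^ s)
    rw [show p * p ^ s = p ^ (s + 1) by ring] at h6
    exact ((ppow (p := p) (s + 2)).mul h6).mono (k := 3) (by omega)

/-- **Bala's conjecture** (2022): `a(p^r) ≡ a(p^{r-1}) (mod p^{3r+3})` for all primes `p ≥ 5` and all `r ≥ 2`. -/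
theorem result : ∀ p : ℕ, p.Prime → 5 ≤ p → ∀ r : ℕ, 2 ≤ r →
    (p : ℤ) ^ (3 * r + 3) ∣ a (p ^ r) - a (p ^ (r - 1)) := by
  intro p hpp h5 r hr
  have hp : Fact p.Prime := ⟨hpp⟩
  obtain ⟨s, rfl⟩ : ∃ s, r = s + 2 := ⟨r - 2, by omega⟩
  rw [show s + 2 - 1 = s + 1 by omega]
  apply dvd_of_PO
  have h2 : p ≠ 2 := by omega
  have h3 : ¬ p - 1 ∣ 2 := fun h => by have := Nat.le_of_dvd (by norm_num) h; omega
  have h4 : ¬ p - 1 ∣ 3 := fun h => by have := Nat.le_of_dvd (by norm_num) h; omega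
  push_cast
  rw [a_eq (p ^ (s + 2)) (Nat.one_le_pow _ _ hpp.pos), a_eq (p ^ (s + 1)) (Nat.one_le_pow _ _ hpp.pos)]
  have e : ∑ k ∈ range (p ^ (s + 2)), F (p ^ (s + 2)) k =
      ∑ J ∈ range (p ^ (s + 1)), F (p ^ (s + 2)) (p * J) +
      ∑ J ∈ range (p ^ (s + 1)), ∑ t ∈ range (p - 1), F (p ^ (s + 2)) (p * J + (t + 1)) := by
    have := sum_split (p := p) hpp.one_lt.le (p ^ (s + 1)) (fun k => F (p ^ (s + 2)) k)
    rwa [show p * p ^ (s + 1) = p ^ (s + 2) by ring] at this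
  have e2 : ∑ J ∈ range (p ^ (s + 1)), F (p ^ (s + 2)) (p * J) =
      ∑ J ∈ range (p ^ (s + 1)), F (p ^ (s + 1)) J * (E p (p ^ (s + 2)) J - 1) +
      ∑ J ∈ range (p ^ (s + 1)), F (p ^ (s + 1)) J := by
    rw [← sum_add_distrib]
    apply sum_congr rfl
    intro J _
    have := F_mul (p := p) (p ^ (s + 1)) J
    rw [show p * p ^ (s + 1) = p ^ (s + 2) by ring] at this
    rw [this]; ring
  rw [e, e2]
  have e3 : ∀ A B C : ℚ, 1 - (A + B + C) - (1 - B) = -(A + C) := by intros; ring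
  rw [e3]
  exact ((partA h2 h3 h4 s).add (partB h2 h4 s)).neg

end Pool.Agent.Results.MP_5eb62f_nt.AllPowers
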